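import Pool.Agent.H851.VC.LE

/-!
MP_f053ce_co. The maximal number `f_4(n)` of edges of a critical (= vertex-critical) 4-chromatic
graph of order `n` satisfies `f_4(n) = n^2/4 + o(n^2)`; more precisely
`n^2/4 - 25 n^(3/2) ≤ f_4(n)` for every `n`, and `f_4(n) / n^2 → 1/4`.
-/

open Finset Filter Topology
open scoped Classical

namespace Pool.Agent.Results.MP_f053ce_co.FourAsymptotic

/-- `G` is critical `k`-chromatic: `χ(G) = k` and `χ(G - x) = k - 1` for every vertex `x`. -/
def IsCriticalChromatic {V : Type} (G : SimpleGraph V) (k : ℕ) : Prop :=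
  G.chromaticNumber = (k : ℕ∞) ∧
    ∀ x : V, (G.induce {y : V | y ≠ x}).chromaticNumber = ((k - 1 : ℕ) : ℕ∞)

/-- `maxEdges k n` is the maximal number of edges of a critical `k`-chromatic graph on `n`
vertices (and `0` if there is none). -/
noncomputable def maxEdges (k n : ℕ) : ℕ :=
  sSup {m : ℕ | ∃ G : SimpleGraph (Fin n), IsCriticalChromatic G k ∧ G.edgeSet.ncard = m}

theorem crit_of {V : Type} (G : SimpleGraph V) (h : IsCriticalChromatic G 4) : H851VC.Crit G := by
  constructor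
  · intro f
    by_contra hno
    push Not at hno
    have hcol : G.Colorable 3 := ⟨SimpleGraph.Coloring.mk f (fun {u w} huw => hno u w huw)⟩
    have h1 := hcol.chromaticNumber_le
    rw [h.1] at h1
    exact absurd h1 (by norm_num)
  · intro v
    have h1 := h.2 v
    have h2 : (G.induce {y : V | y ≠ v}).Colorable 3 := by
      rw [← SimpleGraph.chromaticNumber_le_iff_colorable, h1]
    obtain ⟨C⟩ := h2
    refine ⟨fun y => if hy : y ≠ v then C ⟨y, hy⟩ else 0, fun u w hu hw huw => ?_⟩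
    simp only [dif_pos hu, dif_pos hw]
    exact C.valid (by simpa using huw)

theorem of_crit {V : Type} (G : SimpleGraph V) (h : H851VC.Crit G) : IsCriticalChromatic G 4 := by
  have hnot : ¬ G.Colorable 3 := by
    rintro ⟨C⟩
    obtain ⟨u, w, huw, he⟩ := h.1 C
    exact C.valid huw he
  obtain ⟨v0, _⟩ := h.1 (fun _ => 0)
  constructor
  · obtain ⟨f, hf⟩ := h.2 v0
    have hcol : G.Colorable 4 := by
      refine ⟨SimpleGraph.Coloring.mk
        (fun y => if y = v0 then (3 : Fin 4) else (f y).castSucc) ?_⟩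
      intro u w huw
      by_cases hu : u = v0
      · have hw : w ≠ v0 := fun h => huw.ne (hu.trans h.symm)
        rw [if_pos hu, if_neg hw]
        intro he
        exact absurd he.symm (Fin.castSucc_lt_last (f w)).ne
      · by_cases hw : w = v0
        · rw [if_neg hu, if_pos hw]
          exact (Fin.castSucc_lt_last (f u)).ne
        · rw [if_neg hu, if_neg hw]
          intro he
          exact hf u w hu hw huw (Fin.castSucc_injective _ he)
    exact (SimpleGraph.chromaticNumber_eq_iff_colorable_not_colorable (n := 3)).2 ⟨hcol, hnot⟩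
  · intro x
    obtain ⟨f, hf⟩ := h.2 x
    have h3 : (G.induce {y : V | y ≠ x}).Colorable 3 := by
      refine ⟨SimpleGraph.Coloring.mk (fun y => f y.1) ?_⟩
      intro u w huw
      exact hf u.1 w.1 u.2 w.2 (by simpa using huw)
    refine (SimpleGraph.chromaticNumber_eq_iff_colorable_not_colorable (n := 2)).2 ⟨h3, ?_⟩
    rintro ⟨C⟩
    apply hnot
    refine ⟨SimpleGraph.Coloring.mk
        (fun y => if hy : y ≠ x then (C ⟨y, hy⟩).castSucc else (2 : Fin 3)) ?_⟩
    intro u w huw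
    by_cases hu : u = x
    · have hw : w ≠ x := fun h => huw.ne (hu.trans h.symm)
      rw [dif_neg (not_not.2 hu), dif_pos hw]
      intro he
      exact absurd he.symm (Fin.castSucc_lt_last (C ⟨w, hw⟩)).ne
    · by_cases hw : w = x
      · rw [dif_pos hu, dif_neg (not_not.2 hw)]
        exact (Fin.castSucc_lt_last (C ⟨u, hu⟩)).ne
      · rw [dif_pos hu, dif_pos hw]
        intro he
        exact C.valid (by simpa using huw) (Fin.castSucc_injective _ he)

theorem e2_univ {n : ℕ} (G : SimpleGraph (Fin n)) :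
    H851VC.e2 G Finset.univ = 2 * G.edgeSet.ncard := by
  have h1 : G.edgeSet.ncard = G.edgeFinset.card := by
    rw [Set.ncard_eq_toFinset_card']
    rfl
  rw [h1, ← G.sum_degrees_eq_twice_card_edges]
  unfold H851VC.e2 H851VC.dg
  refine Finset.sum_congr rfl (fun v _ => ?_)
  rw [← SimpleGraph.card_neighborFinset_eq_degree]
  congr 1
  ext w
  simp

theorem result :
    (∀ n : ℕ, (n : ℝ) ^ 2 / 4 - 25 * (n : ℝ) ^ ((3 : ℝ) / 2) ≤ (maxEdges 4 n : ℝ)) ∧
      Tendsto (fun n : ℕ => (maxEdges 4 n : ℝ) / (n : ℝ) ^ 2) atTop (𝓝 (1 / 4)) := by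
  have hbdd : ∀ n : ℕ, BddAbove {m : ℕ | ∃ G : SimpleGraph (Fin n),
      IsCriticalChromatic G 4 ∧ G.edgeSet.ncard = m} := by
    intro n
    refine ⟨n ^ 2, ?_⟩
    rintro m ⟨G, _, rfl⟩
    have h1 := H851VC.e2_le G Finset.univ
    rw [e2_univ, Finset.card_univ, Fintype.card_fin] at h1
    omega
  have hlow : ∀ n : ℕ, (n : ℝ) ^ 2 / 4 - 25 * (n : ℝ) ^ ((3 : ℝ) / 2) ≤ (maxEdges 4 n : ℝ) := by
    intro n
    by_cases hn : 55 ≤ n
    · obtain ⟨s, _, h1, h2, G, hG, hm⟩ := H851VC.has_all n hn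
      have h3 : s ^ 4 ≤ maxEdges 4 n := by
        rw [e2_univ] at hm
        have h4 : G.edgeSet.ncard ≤ maxEdges 4 n := le_csSup (hbdd n) ⟨G, of_crit G hG, rfl⟩
        omega
      exact (H851VC.lower_arith n s h2 h1).trans (by exact_mod_cast h3)
    · push Not at hn
      have h0 : (0 : ℝ) ≤ (maxEdges 4 n : ℝ) := by positivity
      have hnr : (n : ℝ) ≤ 55 := by exact_mod_cast hn.le
      have hn0 : (0 : ℝ) ≤ n := by positivity
      have h32 : (n : ℝ) ^ ((3 : ℝ) / 2) = n * Real.sqrt n := by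
        rw [show (3 : ℝ) / 2 = 1 + 1 / 2 by norm_num, Real.rpow_add' hn0 (by norm_num),
          Real.rpow_one, Real.sqrt_eq_rpow]
      refine le_trans ?_ h0
      rw [h32]
      rcases Nat.eq_zero_or_pos n with rfl | hpos
      · simp
      · have h1 : (1 : ℝ) ≤ Real.sqrt n := by
          apply Real.one_le_sqrt.2; exact_mod_cast hpos
        nlinarith
  refine ⟨hlow, ?_⟩
  rw [Metric.tendsto_atTop]
  intro ε hε
  set η : ℝ := min (ε / 2) 1 with hη
  have hη0 : 0 < η := by positivity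
  have hη1 : η ≤ 1 := min_le_right _ _
  have hηε : η ≤ ε / 2 := min_le_left _ _
  set k : ℕ := ⌈2 / (η ^ 3 / 4)⌉₊ with hk
  obtain ⟨N1, hN1⟩ := exists_nat_gt (5 + k + 2 * (k : ℝ) ^ 2)
  obtain ⟨N2, hN2⟩ := exists_nat_gt (4 * ((k : ℝ) + k ^ 2) / η)
  obtain ⟨N3, hN3⟩ := exists_nat_gt
    (2 * (4 + 5 * (k : ℝ) + 2 * (⌈2 / η⌉₊ * 2 ^ k * (k + 1))) / η ^ 2)
  obtain ⟨N4, hN4⟩ := exists_nat_gt ((25 / (ε / 2)) ^ 2)
  refine ⟨max (max N1 N2) (max N3 (max N4 1)), fun n hn => ?_⟩
  have g1 : N1 ≤ n := le_trans (le_trans (le_max_left _ _) (le_max_left _ _)) hn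
  have g2 : N2 ≤ n := le_trans (le_trans (le_max_right _ _) (le_max_left _ _)) hn
  have g3 : N3 ≤ n := le_trans (le_trans (le_max_left _ _) (le_max_right _ _)) hn
  have g4 : N4 ≤ n :=
    le_trans (le_trans (le_trans (le_max_left _ _) (le_max_right _ _)) (le_max_right _ _)) hn
  have g5 : 1 ≤ n :=
    le_trans (le_trans (le_trans (le_max_right _ _) (le_max_right _ _)) (le_max_right _ _)) hn
  have r1 : (N1 : ℝ) ≤ n := by exact_mod_cast g1
  have r2 : (N2 : ℝ) ≤ n := by exact_mod_cast g2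
  have r3 : (N3 : ℝ) ≤ n := by exact_mod_cast g3
  have r4 : (N4 : ℝ) ≤ n := by exact_mod_cast g4
  have r5 : (1 : ℝ) ≤ n := by exact_mod_cast g5
  have hn0 : (0 : ℝ) < n := by linarith
  have hn2 : (0 : ℝ) < (n : ℝ) ^ 2 := by positivity
  -- upper bound
  have hup : (maxEdges 4 n : ℝ) ≤ (1 / 4 + η) * (n : ℝ) ^ 2 := by
    have hall : ∀ m ∈ {m : ℕ | ∃ G : SimpleGraph (Fin n), IsCriticalChromatic G 4 ∧
        G.edgeSet.ncard = m}, (m : ℝ) ≤ (1 / 4 + η) * (n : ℝ) ^ 2 := by
      rintro m ⟨G, hG, rfl⟩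
      have hC := crit_of G hG
      have h1 := H851VC.upper G η hη0 hη1 hC.2 hC.1 k hk
        (by rw [Fintype.card_fin]; linarith)
        (by
          rw [Fintype.card_fin]
          have := (div_lt_iff₀ hη0).1 (hN2.trans_le r2)
          linarith)
        (by
          rw [Fintype.card_fin]
          have := (div_lt_iff₀ (by positivity : 0 < η ^ 2)).1 (hN3.trans_le r3)
          linarith)
      rw [e2_univ, Fintype.card_fin] at h1
      push_cast at h1
      linarith
    rcases Set.eq_empty_or_nonempty {m : ℕ | ∃ G : SimpleGraph (Fin n),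
        IsCriticalChromatic G 4 ∧ G.edgeSet.ncard = m} with he | hne
    · have : maxEdges 4 n = 0 := by
        unfold maxEdges
        rw [he]
        simp
      rw [this]
      have : (0 : ℝ) ≤ (1 / 4 + η) * (n : ℝ) ^ 2 := by positivity
      simpa using this
    · exact hall _ (Nat.sSup_mem hne (hbdd n))
  have hlo := hlow n
  have h32 : (n : ℝ) ^ ((3 : ℝ) / 2) = n * Real.sqrt n := by
    rw [show (3 : ℝ) / 2 = 1 + 1 / 2 by norm_num, Real.rpow_add' hn0.le (by norm_num),
      Real.rpow_one, Real.sqrt_eq_rpow]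
  rw [h32] at hlo
  -- `25 n √n ≤ (ε / 2) n ^ 2`
  have hsq : 25 * Real.sqrt n < ε * n := by
    have h1 : 25 / (ε / 2) < Real.sqrt n := by
      apply Real.lt_sqrt_of_sq_lt
      linarith
    have h2 : 25 < Real.sqrt n * (ε / 2) := (div_lt_iff₀ (by positivity)).1 h1
    have h3 : Real.sqrt n * Real.sqrt n = n := Real.mul_self_sqrt hn0.le
    have h4 : 0 < Real.sqrt n := Real.sqrt_pos.2 hn0
    nlinarith
  rw [Real.dist_eq, abs_lt]
  constructor
  · have h1 : 1 / 4 - ε < (maxEdges 4 n : ℝ) / (n : ℝ) ^ 2 := by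
      rw [lt_div_iff₀ hn2]
      nlinarith
    linarith
  · have h1 : (maxEdges 4 n : ℝ) / (n : ℝ) ^ 2 ≤ 1 / 4 + η := by
      rw [div_le_iff₀ hn2]; exact hup
    linarith

end Pool.Agent.Results.MP_f053ce_co.FourAsymptotic
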